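import Pool.Agent.Helper69.Q1.WordCount
import Pool.Agent.Helper9.Q1.LowAv

/-! Module AN3: comparison of the density with the partition function. -/

namespace Pool.Agent.Helper69.Q1

open Finset Pool.Agent.Helper3.Q1 Pool.Agent.Helper89.Q1 Pool.Agent.Helper9.Q1

theorem two_mul_le_pow (e : ℕ) : 2 * e ≤ 2 ^ e := by
  induction e with
  | zero => simp
  | succ e ih =>
    rcases Nat.eq_zero_or_pos e with h | h
    · subst h; norm_num
    · rw [pow_succ]
      have : 2 ≤ 2 ^ e := by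
        calc 2 = 2 ^ 1 := rfl
          _ ≤ 2 ^ e := Nat.pow_le_pow_right (by norm_num) h
      omega

theorem term_le {k t d : ℕ} (hd : d ≤ t) :
    (3 : ℝ) ^ (k + 1) / 2 ^ t * ((t - d : ℕ) : ℝ) ≤ 3 / 2 * (3 ^ k / 2 ^ d) := by
  obtain ⟨e, rfl⟩ := Nat.exists_eq_add_of_le hd
  rw [Nat.add_sub_cancel_left]
  have h : (2 : ℝ) * e ≤ 2 ^ e := by exact_mod_cast two_mul_le_pow e
  have e1 : (3 : ℝ) ^ (k + 1) / 2 ^ (d + e) * (e : ℝ) = 3 / 2 * (3 ^ k / 2 ^ d) * (2 * e / 2 ^ e) := by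
    rw [pow_add, pow_succ]; field_simp; ring
  rw [e1]
  apply mul_le_of_le_one_right (by positivity)
  rw [div_le_one (by positivity)]
  exact h

theorem pointwise (h0 : AN0) (k : ℕ) (hk : 1 ≤ k) (x : ℤ) :
    Dn (k + 1) (2 * (k + 1)) (k + 1) x ≤ 3 / 2 * Zk k x + LowF k x := by
  classical
  set t := 2 * (k + 1) with ht
  set F := (WC k t x).filter (fun A => ¬ (3 : ℤ) ∣ nx A x) with hF
  have hFm : ∀ A ∈ F, ((A.length = k ∧ A.sum ≤ t ∧ ∀ a ∈ A, 1 ≤ a) ∧ cp A x) ∧ ¬ (3 : ℤ) ∣ nx A x := by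
    intro A hA
    rw [hF, mem_filter, mem_WC] at hA
    exact hA
  have h1 : Dn (k + 1) t (k + 1) x ≤ ∑ A ∈ F, (3 : ℝ) ^ (k + 1) / 2 ^ t * ((t - A.sum : ℕ) : ℝ) := by
    rw [Dn_eq h0, ← mul_sum]
    apply mul_le_mul_of_nonneg_left _ (by positivity)
    have := WC_snoc k t x
    exact_mod_cast this
  refine h1.trans ?_
  rw [← sum_filter_add_sum_filter_not F (fun A => 9 * k ≤ 5 * A.sum)]
  apply add_le_add
  · unfold Zk
    rw [mul_sum]
    have hsub : F.filter (fun A => 9 * k ≤ 5 * A.sum) ⊆ Al k := by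
      intro A hA
      rw [mem_filter] at hA
      obtain ⟨⟨⟨h2, h3, h4⟩, -⟩, -⟩ := hFm A hA.1
      exact mem_Al.mpr ⟨h2, h4, hA.2, by omega⟩
    refine le_trans ?_ (sum_le_sum_of_subset_of_nonneg hsub ?_)
    · apply sum_le_sum
      intro A hA
      rw [mem_filter] at hA
      obtain ⟨⟨⟨h2, h3, h4⟩, h5⟩, h6⟩ := hFm A hA.1
      rw [if_pos ⟨h5, h6⟩]
      exact term_le h3
    · intro A _ _
      split_ifs <;> positivity
  · unfold LowF
    have hsub : F.filter (fun A => ¬ 9 * k ≤ 5 * A.sum) ⊆ LS k := by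
      intro A hA
      rw [mem_filter] at hA
      obtain ⟨⟨⟨h2, h3, h4⟩, -⟩, -⟩ := hFm A hA.1
      unfold LS
      rw [mem_biUnion]
      refine ⟨A.sum, mem_filter.mpr ⟨mem_range.mpr (by omega), by omega⟩, ?_⟩
      exact (mem_comps _ _ _).mpr ⟨h2, rfl, h4⟩
    refine le_trans ?_ (sum_le_sum_of_subset_of_nonneg hsub ?_)
    · apply sum_le_sum
      intro A hA
      rw [mem_filter] at hA
      obtain ⟨⟨⟨h2, h3, h4⟩, h5⟩, h6⟩ := hFm A hA.1
      rw [if_pos h5]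
      apply mul_le_mul_of_nonneg_left _ (by positivity)
      have : t - A.sum ≤ 2 * k + 2 := by omega
      exact_mod_cast this
    · intro A _ _
      split_ifs <;> positivity

theorem LowF_nonneg (k : ℕ) (x : ℤ) : 0 ≤ LowF k x := by
  unfold LowF
  apply sum_nonneg
  intro A _
  split_ifs <;> positivity

theorem Zk_lower {k : ℕ} {x : ℤ} (hx : ¬ (3 : ℤ) ∣ x) : ((3 : ℝ) / 2 ^ 7) ^ k ≤ Zk k x := by
  obtain ⟨w, h1, h2, h3⟩ := exists_word k x hx
  have hw : w ∈ Al k := by rw [← h1]; exact mem_Al_of h2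
  rw [Zk_eq, div_pow, ← pow_mul]
  exact (wt_lower hw h3).trans (single_le_sum (f := fun w => wt w x) (fun v _ => wt_nonneg v x) hw)

theorem an3 : AN0 → AN3 := by
  intro h0 k hk
  refine ⟨fun x hx => Zk_lower hx, LowF k, LowF_nonneg k, pointwise h0 k hk, av_LowF k⟩

end Pool.Agent.Helper69.Q1
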