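import Pool.Agent.Helper3.Q1.ANdefs
import Pool.Agent.Helper89.Q1.Kern

/-! Module AN3, part A: densities as counts of words. -/

namespace Pool.Agent.Helper69.Q1

open Finset Pool.Agent.Helper3.Q1 Pool.Agent.Helper89.Q1

/-- words of length `n` with positive letters and sum at most `t` -/
def WS (n t : ℕ) : Finset (List ℕ) := (range (t + 1)).biUnion (comps n)

theorem mem_WS {n t : ℕ} {w : List ℕ} : w ∈ WS n t ↔ w.length = n ∧ w.sum ≤ t ∧ ∀ a ∈ w, 1 ≤ a := by
  unfold WS
  simp only [mem_biUnion, mem_range, mem_comps]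
  constructor
  · rintro ⟨d, h1, h2, h3, h4⟩
    subst h3
    exact ⟨h2, by omega, h4⟩
  · rintro ⟨h1, h2, h3⟩
    exact ⟨w.sum, by omega, h1, rfl, h3⟩

open Classical in
/-- words compatible with `x` -/
noncomputable def WC (n t : ℕ) (x : ℤ) : Finset (List ℕ) := (WS n t).filter (fun w => cp w x)

theorem mem_WC {n t : ℕ} {x : ℤ} {w : List ℕ} :
    w ∈ WC n t x ↔ (w.length = n ∧ w.sum ≤ t ∧ ∀ a ∈ w, 1 ≤ a) ∧ cp w x := by
  classical
  unfold WC; rw [mem_filter, mem_WS]

theorem cp_one {v : List ℕ} {x : ℤ} : cp (1 :: v) x ↔ (3 : ℤ) ∣ 2 * x - 1 ∧ cp v ((2 * x - 1) / 3) := by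
  have h : cp ([1] ++ v) x ↔ cp [1] x ∧ cp v (nx [1] x) := cp_append
  have e1 : cp [1] x ↔ (3 : ℤ) ∣ 2 * x - 1 := by
    unfold cp; simp [cw]
  have e2 : nx [1] x = (2 * x - 1) / 3 := by
    unfold nx; simp [cw]
  rw [e1, e2] at h
  simpa using h

theorem cp_succ {a : ℕ} {v : List ℕ} {x : ℤ} : cp ((a + 1) :: v) x ↔ cp (a :: v) (2 * x) := by
  unfold cp
  simp only [List.length_cons, List.sum_cons, cw]
  rw [show (2 : ℤ) ^ (a + 1 + v.sum) * x = 2 ^ (a + v.sum) * (2 * x) by ring]

/-- increase the first letter -/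
def inc : List ℕ → List ℕ
  | [] => []
  | a :: v => (a + 1) :: v

theorem inc_inj : Function.Injective inc := by
  intro v w h
  cases v with
  | nil => cases w with
    | nil => rfl
    | cons b w => simp [inc] at h
  | cons a v => cases w with
    | nil => simp [inc] at h
    | cons b w =>
      simp only [inc, List.cons.injEq, Nat.add_right_cancel_iff] at h
      rw [h.1, h.2]

theorem WC_rec (n t : ℕ) (x : ℤ) : (WC (n + 1) (t + 1) x).card =
    (WC (n + 1) t (2 * x)).card + (if (3 : ℤ) ∣ 2 * x - 1 then (WC n t ((2 * x - 1) / 3)).card else 0) := by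
  classical
  have h : WC (n + 1) (t + 1) x = (WC (n + 1) t (2 * x)).image inc ∪
      (if (3 : ℤ) ∣ 2 * x - 1 then (WC n t ((2 * x - 1) / 3)).image (List.cons 1) else ∅) := by
    ext w
    rw [mem_union, mem_WC]
    constructor
    · rintro ⟨⟨h1, h2, h3⟩, h4⟩
      cases w with
      | nil => simp at h1
      | cons a v =>
        have ha := h3 a (by simp)
        obtain ⟨b, rfl⟩ : ∃ b, a = b + 1 := ⟨a - 1, by omega⟩
        rcases Nat.eq_zero_or_pos b with hb | hb
        · right
          subst hb
          rw [zero_add] at *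
          obtain ⟨h5, h6⟩ := cp_one.mp h4
          rw [if_pos h5, mem_image]
          refine ⟨v, mem_WC.mpr ⟨⟨by simpa using h1, ?_, fun c hc => h3 c (by simp [hc])⟩, h6⟩, rfl⟩
          simp only [List.sum_cons] at h2; omega
        · left
          rw [mem_image]
          refine ⟨b :: v, mem_WC.mpr ⟨⟨by simpa using h1, ?_, ?_⟩, cp_succ.mp h4⟩, rfl⟩
          · simp only [List.sum_cons] at h2 ⊢; omega
          · intro c hc
            rcases List.mem_cons.mp hc with rfl | hc
            · exact hb
            · exact h3 c (by simp [hc])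
    · rintro (h | h)
      · rw [mem_image] at h
        obtain ⟨v, hv, rfl⟩ := h
        obtain ⟨⟨h1, h2, h3⟩, h4⟩ := mem_WC.mp hv
        cases v with
        | nil => simp at h1
        | cons b v =>
          simp only [inc]
          refine ⟨⟨by simpa using h1, ?_, ?_⟩, cp_succ.mpr h4⟩
          · simp only [List.sum_cons] at h2 ⊢; omega
          · intro c hc
            rcases List.mem_cons.mp hc with rfl | hc
            · omega
            · exact h3 c (by simp [hc])
      · split_ifs at h with h5
        · rw [mem_image] at h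
          obtain ⟨v, hv, rfl⟩ := h
          obtain ⟨⟨h1, h2, h3⟩, h4⟩ := mem_WC.mp hv
          refine ⟨⟨by simpa using h1, ?_, ?_⟩, cp_one.mpr ⟨h5, h4⟩⟩
          · simp only [List.sum_cons]; omega
          · intro c hc
            rcases List.mem_cons.mp hc with rfl | hc
            · exact le_refl 1
            · exact h3 c hc
        · simp at h
  rw [h, card_union_of_disjoint, card_image_of_injective _ inc_inj]
  · split_ifs
    · rw [card_image_of_injective _ (fun v w h => (List.cons.inj h).2)]
    · simp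
  · rw [disjoint_left]
    intro w hw hw'
    rw [mem_image] at hw
    obtain ⟨v, hv, rfl⟩ := hw
    obtain ⟨⟨h1, h2, h3⟩, h4⟩ := mem_WC.mp hv
    split_ifs at hw'
    · rw [mem_image] at hw'
      obtain ⟨v', hv', he⟩ := hw'
      cases v with
      | nil => simp at h1
      | cons b v =>
        simp only [inc, List.cons.injEq] at he
        have := h3 b (by simp)
        omega
    · simp at hw'

theorem WC_zero (t : ℕ) (x : ℤ) : (WC 0 t x).card = 1 := by
  have : WC 0 t x = {[]} := by
    ext w
    rw [mem_WC, mem_singleton]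
    constructor
    · rintro ⟨⟨h1, -, -⟩, -⟩
      exact List.length_eq_zero_iff.mp h1
    · rintro rfl
      exact ⟨⟨rfl, by simp, by simp⟩, cp_nil x⟩
  rw [this, card_singleton]

theorem WC_nil (n : ℕ) (x : ℤ) : (WC (n + 1) 0 x).card = 0 := by
  rw [card_eq_zero, eq_empty_iff_forall_notMem]
  intro w hw
  obtain ⟨⟨h1, h2, h3⟩, -⟩ := mem_WC.mp hw
  cases w with
  | nil => simp at h1
  | cons a v =>
    have := h3 a (by simp)
    simp only [List.sum_cons] at h2
    omega

theorem Dn_eq (h0 : AN0) : ∀ (t j : ℕ) (x : ℤ), Dn j t j x = 3 ^ j / 2 ^ t * (WC j t x).card := by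
  obtain ⟨hr, hz, hn⟩ := h0
  intro t
  induction t with
  | zero =>
    intro j x
    cases j with
    | zero => rw [hz, WC_zero]; simp
    | succ j => rw [hn, WC_nil]; simp
  | succ t ih =>
    intro j x
    cases j with
    | zero => rw [hz, WC_zero]; simp
    | succ j =>
      rw [hr, WC_rec, ih]
      split_ifs with h
      · rw [ih]; push_cast; field_simp; ring
      · push_cast; field_simp; ring

/-- number of words, by the last letter -/
theorem WC_snoc (k t : ℕ) (x : ℤ) : (WC (k + 1) t x).card ≤
    ∑ A ∈ (WC k t x).filter (fun A => ¬ (3 : ℤ) ∣ nx A x), (t - A.sum) := by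
  classical
  have h : WC (k + 1) t x ⊆ ((WC k t x).filter (fun A => ¬ (3 : ℤ) ∣ nx A x)).biUnion
      (fun A => (range (t - A.sum)).image (fun b => A ++ [b + 1])) := by
    intro w hw
    obtain ⟨⟨h1, h2, h3⟩, h4⟩ := mem_WC.mp hw
    have hne : w ≠ [] := by intro h; subst h; simp at h1
    obtain ⟨A, b, rfl⟩ := List.eq_nil_or_concat w |>.resolve_left hne
    simp only [List.concat_eq_append] at *
    have hb := h3 b (by simp)
    obtain ⟨c, rfl⟩ : ∃ c, b = c + 1 := ⟨b - 1, by omega⟩
    obtain ⟨h5, h6⟩ := cp_append.mp h4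
    rw [List.sum_append, List.sum_singleton] at h2
    rw [mem_biUnion]
    refine ⟨A, mem_filter.mpr ⟨mem_WC.mpr ⟨⟨by simpa using h1, by omega, fun a ha => h3 a (by simp [ha])⟩, h5⟩, ?_⟩, ?_⟩
    · intro h7
      unfold cp at h6
      simp only [List.length_singleton, List.sum_singleton, cw, List.sum_nil, pow_one, pow_zero] at h6
      have h8 := dvd_sub (Dvd.dvd.mul_left h7 (2 ^ (c + 1))) h6
      omega
    · rw [mem_image]
      exact ⟨c, mem_range.mpr (by omega), rfl⟩
  refine (card_le_card h).trans (card_biUnion_le.trans (sum_le_sum ?_))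
  intro A _
  exact card_image_le.trans (by rw [card_range])

end Pool.Agent.Helper69.Q1
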